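import Mathlib

/-!
# NCC: certificates for identities in noncommutative rings of characteristic 2 (helper68)

Words in the letters `0, ..., 7` are coded by natural numbers: `1` is the empty word and
`8 * n + l` is the word `n` followed by the letter `l`. Polynomials over `F_2` are lists of codes.
Letters `l` with `sq l = true` are assumed to have square zero.
Everything is evaluated by the kernel (`rfl` / `decide`).
-/

set_option autoImplicit false

namespace Pool.Agent.NCC

variable {R : Type*} [Ring R]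

/-- value of a coded word -/
def ev (ρ : ℕ → R) (n : ℕ) : R :=
  if _h : n < 8 then 1 else ev ρ (n / 8) * ρ (n % 8)
termination_by n
decreasing_by exact Nat.div_lt_self (by omega) (by norm_num)

/-- value of a polynomial -/
def evp (ρ : ℕ → R) : List ℕ → R
  | [] => 0
  | n :: p => ev ρ n + evp ρ p

/-- valid codes -/
inductive Va : ℕ → Prop
  | one : Va 1
  | snoc (n l : ℕ) (h : Va n) (hl : l < 8) : Va (8 * n + l)

def Vap (p : List ℕ) : Prop := ∀ n ∈ p, Va n

theorem ev_one (ρ : ℕ → R) : ev ρ 1 = 1 := by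
  rw [ev]; simp

theorem Va.pos {n : ℕ} (h : Va n) : 1 ≤ n := by
  induction h with
  | one => exact le_refl 1
  | snoc n l h hl ih => omega

theorem ev_snoc (ρ : ℕ → R) {n l : ℕ} (hn : 1 ≤ n) (hl : l < 8) :
    ev ρ (8 * n + l) = ev ρ n * ρ l := by
  rw [ev]
  have h1 : ¬ (8 * n + l < 8) := by omega
  rw [dif_neg h1]
  have h2 : (8 * n + l) / 8 = n := by omega
  have h3 : (8 * n + l) % 8 = l := by omega
  rw [h2, h3]

/-- forces the kernel to evaluate `n` before it is used -/
def force {α : Type*} (n : ℕ) (f : ℕ → α) : α :=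
  Nat.rec (motive := fun _ => α) (f 0) (fun m _ => f (Nat.succ m)) n

theorem force_eq {α : Type*} (n : ℕ) (f : ℕ → α) : force n f = f n := by
  cases n with
  | zero => rfl
  | succ n => rfl

/-- number of letters -/
def wl (n : ℕ) : ℕ := Nat.div (Nat.log2 n) 3

/-- concatenation of coded words -/
def cat (a b : ℕ) : ℕ :=
  force (Nat.pow 8 (wl b)) (fun k => Nat.add (Nat.mul a k) (Nat.sub b k))

theorem cat_def (a b : ℕ) : cat a b = a * 8 ^ wl b + (b - 8 ^ wl b) := by
  unfold cat
  rw [force_eq]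
  rfl

/-- `n` has `k` letters -/
inductive Vk : ℕ → ℕ → Prop
  | one : Vk 0 1
  | snoc (k n l : ℕ) (h : Vk k n) (hl : l < 8) : Vk (k + 1) (8 * n + l)

theorem Va.ex {n : ℕ} (h : Va n) : ∃ k, Vk k n := by
  induction h with
  | one => exact ⟨0, Vk.one⟩
  | snoc n l h hl ih => obtain ⟨k, hk⟩ := ih; exact ⟨k + 1, Vk.snoc k n l hk hl⟩

theorem Vk.va {k n : ℕ} (h : Vk k n) : Va n := by
  induction h with
  | one => exact Va.one
  | snoc k n l h hl ih => exact Va.snoc n l ih hl

theorem Vk.bd {k n : ℕ} (h : Vk k n) : 8 ^ k ≤ n ∧ n < 2 * 8 ^ k := by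
  induction h with
  | one => simp
  | snoc k n l h hl ih =>
    obtain ⟨h1, h2⟩ := ih
    rw [pow_succ]
    constructor
    · omega
    · omega

theorem Vk.wl_eq {k n : ℕ} (h : Vk k n) : wl n = k := by
  obtain ⟨h1, h2⟩ := h.bd
  have hn : n ≠ 0 := by
    have : 0 < 8 ^ k := pow_pos (by norm_num) k
    omega
  have e8 : (8 : ℕ) ^ k = 2 ^ (3 * k) := by rw [pow_mul]; norm_num
  have hlog : Nat.log2 n = 3 * k := by
    rw [Nat.log2_eq_iff hn]
    rw [e8] at h1 h2
    refine ⟨h1, ?_⟩
    rw [pow_succ]; omega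
  unfold wl
  rw [hlog]
  change 3 * k / 3 = k
  omega

theorem cat_one (a : ℕ) : cat a 1 = a := by
  have h := Vk.one.wl_eq
  rw [cat_def, h]
  simp

theorem cat_snoc {k a b l : ℕ} (hb : Vk k b) (hl : l < 8) :
    cat a (8 * b + l) = 8 * cat a b + l := by
  have h1 := (Vk.snoc k b l hb hl).wl_eq
  have h2 := hb.wl_eq
  obtain ⟨h3, h4⟩ := hb.bd
  rw [cat_def, cat_def, h1, h2, pow_succ]
  have e : a * (8 ^ k * 8) = 8 * (a * 8 ^ k) := by ring
  rw [e]
  omega

theorem ev_cat (ρ : ℕ → R) {a : ℕ} (ha : Va a) {k b : ℕ} (hb : Vk k b) :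
    ev ρ (cat a b) = ev ρ a * ev ρ b ∧ Va (cat a b) := by
  induction hb with
  | one => rw [cat_one, ev_one, mul_one]; exact ⟨rfl, ha⟩
  | snoc k n l h hl ih =>
    rw [cat_snoc h hl, ev_snoc ρ ih.2.pos hl, ev_snoc ρ h.va.pos hl, ih.1, mul_assoc]
    exact ⟨rfl, Va.snoc _ _ ih.2 hl⟩

/-- first letter of a nonempty word -/
def fst (n : ℕ) : ℕ := Nat.mod (Nat.div n (Nat.pow 8 (Nat.sub (wl n) 1))) 8

theorem fst_def (n : ℕ) : fst n = n / 8 ^ (wl n - 1) % 8 := rfl

theorem Vk.uncons {k n : ℕ} (h : Vk (k + 1) n) :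
    fst n < 8 ∧ ∃ m, Vk k m ∧ n = cat (8 * 1 + fst n) m := by
  -- induct on k
  induction k generalizing n with
  | zero =>
    cases h with
    | snoc _ n' l h' hl =>
      cases h' with
      | one =>
        have hw : wl (8 * 1 + l) = 1 := (Vk.snoc 0 1 l Vk.one hl).wl_eq
        have hf : fst (8 * 1 + l) = l := by
          rw [fst_def, hw]
          simp
          omega
        rw [hf]
        exact ⟨hl, 1, Vk.one, by rw [cat_one]⟩
  | succ k ih =>
    cases h with
    | snoc _ n' l h' hl =>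
      obtain ⟨hf, m, hm, hn⟩ := ih h'
      have hw : wl (8 * n' + l) = k + 1 + 1 := (Vk.snoc _ n' l h' hl).wl_eq
      have hw' : wl n' = k + 1 := h'.wl_eq
      have hff : fst (8 * n' + l) = fst n' := by
        rw [fst_def, fst_def, hw, hw']
        simp only [Nat.add_sub_cancel]
        rw [pow_succ', ← Nat.div_div_eq_div_mul]
        have : (8 * n' + l) / 8 = n' := by omega
        rw [this]
      rw [hff]
      refine ⟨hf, 8 * m + l, Vk.snoc _ _ _ hm hl, ?_⟩
      rw [cat_snoc hm hl, ← hn]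

/-- product of two words; `none` if two equal square zero letters meet -/
def cmul (sq : ℕ → Bool) (a b : ℕ) (acc : List ℕ) : List ℕ :=
  cond (Nat.ble 8 a && Nat.ble 8 b && Nat.beq (Nat.mod a 8) (fst b) && sq (Nat.mod a 8)) acc
    (force (cat a b) (fun c => c :: acc))

theorem cmul_spec (ρ : ℕ → R) (sq : ℕ → Bool) (hsq : ∀ l, sq l = true → ρ l * ρ l = 0)
    {a b : ℕ} (ha : Va a) (hb : Va b) (acc : List ℕ) (hacc : Vap acc) :
    evp ρ (cmul sq a b acc) = ev ρ a * ev ρ b + evp ρ acc ∧ Vap (cmul sq a b acc) := by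
  obtain ⟨k, hk⟩ := hb.ex
  have hc := ev_cat ρ ha hk
  unfold cmul
  rw [force_eq]
  cases h : (Nat.ble 8 a && Nat.ble 8 b && Nat.beq (Nat.mod a 8) (fst b) && sq (Nat.mod a 8)) with
  | true =>
    rw [cond_true]
    simp only [Bool.and_eq_true, Nat.ble_eq, Nat.beq_eq] at h
    obtain ⟨⟨⟨h1, h2⟩, h3⟩, h4⟩ := h
    have hm : Nat.mod a 8 = a % 8 := rfl
    rw [hm] at h3 h4
    refine ⟨?_, hacc⟩
    have hz : ev ρ a * ev ρ b = 0 := by
      cases ha with
      | one => omega
      | snoc n l hn hl =>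
        cases k with
        | zero => cases hk; omega
        | succ k =>
          obtain ⟨hf, m, hm, hbe⟩ := hk.uncons
          have e1 : (8 * n + l) % 8 = l := by omega
          rw [e1] at h3 h4
          have hf8 : Va (8 * 1 + fst b) := Va.snoc 1 _ Va.one hf
          have e2 : ev ρ b = ρ l * ev ρ m := by
            conv_lhs => rw [hbe]
            rw [(ev_cat ρ hf8 hm).1, ev_snoc ρ (le_refl 1) hf, ev_one, one_mul, ← h3]
          rw [ev_snoc ρ hn.pos hl, e2, mul_assoc, ← mul_assoc (ρ l), hsq l h4, zero_mul, mul_zero]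
    rw [hz, zero_add]
  | false =>
    rw [cond_false]
    refine ⟨?_, ?_⟩
    · rw [evp, hc.1]
    · intro n hn
      rcases List.mem_cons.mp hn with rfl | hn
      · exact hc.2
      · exact hacc n hn

/-- symmetric difference of two sorted lists, inner loop -/
def xi (x : ℕ) (a : List ℕ) (k : List ℕ → List ℕ) (b : List ℕ) : List ℕ :=
  List.rec (motive := fun _ => List ℕ) (x :: a)
    (fun y b' r => cond (Nat.beq x y) (k b') (cond (Nat.ble x y) (x :: k (y :: b')) (y :: r))) b

/-- symmetric difference of two sorted lists -/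
def xa (a : List ℕ) : List ℕ → List ℕ :=
  List.rec (motive := fun _ => List ℕ → List ℕ) (fun b => b) (fun x a k b => xi x a k b) a

theorem evp_append (ρ : ℕ → R) (a b : List ℕ) : evp ρ (a ++ b) = evp ρ a + evp ρ b := by
  induction a with
  | nil => simp [evp]
  | cons x a ih => rw [List.cons_append, evp, evp, ih, add_assoc]

theorem xa_nil (b : List ℕ) : xa [] b = b := rfl
theorem xa_cons (x : ℕ) (a b : List ℕ) : xa (x :: a) b = xi x a (xa a) b := rfl
theorem xi_nil (x : ℕ) (a : List ℕ) (k : List ℕ → List ℕ) : xi x a k [] = x :: a := rfl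
theorem xi_cons (x : ℕ) (a : List ℕ) (k : List ℕ → List ℕ) (y : ℕ) (b : List ℕ) :
    xi x a k (y :: b) = cond (Nat.beq x y) (k b)
      (cond (Nat.ble x y) (x :: k (y :: b)) (y :: xi x a k b)) := rfl

theorem xi_spec (ρ : ℕ → R) (h2 : (2 : R) = 0) (x : ℕ) (a : List ℕ) (hx : Va x) (ha : Vap a)
    (k : List ℕ → List ℕ) (hk : ∀ b, Vap b → evp ρ (k b) = evp ρ a + evp ρ b ∧ Vap (k b)) :
    ∀ b, Vap b → evp ρ (xi x a k b) = ev ρ x + evp ρ a + evp ρ b ∧ Vap (xi x a k b) := by
  intro b
  induction b with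
  | nil =>
    intro _
    rw [xi_nil]
    refine ⟨by simp [evp], ?_⟩
    intro n hn
    rcases List.mem_cons.mp hn with rfl | hn
    · exact hx
    · exact ha n hn
  | cons y b ih =>
    intro hb
    have hy : Va y := hb y List.mem_cons_self
    have hb' : Vap b := fun n hn => hb n (List.mem_cons_of_mem _ hn)
    rw [xi_cons]
    cases h : Nat.beq x y with
    | true =>
      rw [cond_true]
      rw [Nat.beq_eq] at h
      subst h
      obtain ⟨i1, i2⟩ := hk b hb'
      refine ⟨?_, i2⟩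
      have : ev ρ x + ev ρ x = 0 := by rw [← two_mul, h2, zero_mul]
      rw [i1, evp]
      calc evp ρ a + evp ρ b = (ev ρ x + ev ρ x) + (evp ρ a + evp ρ b) := by
            rw [this, zero_add]
        _ = _ := by abel
    | false =>
      rw [cond_false]
      cases h' : Nat.ble x y with
      | true =>
        rw [cond_true]
        obtain ⟨i1, i2⟩ := hk (y :: b) hb
        refine ⟨?_, ?_⟩
        · rw [evp, i1]; abel
        · intro n hn
          rcases List.mem_cons.mp hn with rfl | hn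
          · exact hx
          · exact i2 n hn
      | false =>
        rw [cond_false]
        obtain ⟨i1, i2⟩ := ih hb'
        refine ⟨?_, ?_⟩
        · rw [evp, i1, evp]; abel
        · intro n hn
          rcases List.mem_cons.mp hn with rfl | hn
          · exact hy
          · exact i2 n hn

theorem xa_spec (ρ : ℕ → R) (h2 : (2 : R) = 0) {a : List ℕ} (ha : Vap a) :
    ∀ {b : List ℕ}, Vap b → evp ρ (xa a b) = evp ρ a + evp ρ b ∧ Vap (xa a b) := by
  induction a with
  | nil => intro b hb; rw [xa_nil]; exact ⟨by simp [evp], hb⟩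
  | cons x a ih =>
    intro b hb
    have hx : Va x := ha x List.mem_cons_self
    have ha' : Vap a := fun n hn => ha n (List.mem_cons_of_mem _ hn)
    rw [xa_cons]
    obtain ⟨i1, i2⟩ := xi_spec ρ h2 x a hx ha' (xa a) (fun b hb => ih ha' hb) b hb
    exact ⟨by rw [i1, evp], i2⟩

/-- word times polynomial -/
def wlm (sq : ℕ → Bool) (w : ℕ) : List ℕ → List ℕ
  | [] => []
  | n :: p => cmul sq w n (wlm sq w p)

/-- polynomial times word -/
def wrm (sq : ℕ → Bool) (w : ℕ) : List ℕ → List ℕ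
  | [] => []
  | n :: p => cmul sq n w (wrm sq w p)

theorem wlm_spec (ρ : ℕ → R) (sq : ℕ → Bool) (hsq : ∀ l, sq l = true → ρ l * ρ l = 0)
    {w : ℕ} (hw : Va w) (p : List ℕ) (hp : Vap p) :
    evp ρ (wlm sq w p) = ev ρ w * evp ρ p ∧ Vap (wlm sq w p) := by
  induction p with
  | nil => simp [wlm, evp, Vap]
  | cons n p ih =>
    obtain ⟨i1, i2⟩ := ih (fun n hn => hp n (List.mem_cons_of_mem _ hn))
    obtain ⟨j1, j2⟩ := cmul_spec ρ sq hsq hw (hp n List.mem_cons_self) _ i2
    rw [wlm]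
    refine ⟨?_, j2⟩
    rw [j1, i1, evp, mul_add]

theorem wrm_spec (ρ : ℕ → R) (sq : ℕ → Bool) (hsq : ∀ l, sq l = true → ρ l * ρ l = 0)
    {w : ℕ} (hw : Va w) (p : List ℕ) (hp : Vap p) :
    evp ρ (wrm sq w p) = evp ρ p * ev ρ w ∧ Vap (wrm sq w p) := by
  induction p with
  | nil => simp [wrm, evp, Vap]
  | cons n p ih =>
    obtain ⟨i1, i2⟩ := ih (fun n hn => hp n (List.mem_cons_of_mem _ hn))
    obtain ⟨j1, j2⟩ := cmul_spec ρ sq hsq (hp n List.mem_cons_self) hw _ i2
    rw [wrm]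
    refine ⟨?_, j2⟩
    rw [j1, i1, evp, add_mul]

/-- merge neighbours -/
def prs : List (List ℕ) → List (List ℕ)
  | a :: b :: L => xa a b :: prs L
  | L => L

/-- sum of a list of polynomials, balanced -/
def bs : ℕ → List (List ℕ) → List ℕ
  | 0, L => L.foldr xa []
  | k + 1, L => bs k (prs L)

def Vapp (L : List (List ℕ)) : Prop := ∀ p ∈ L, Vap p

theorem prs_spec (ρ : ℕ → R) (h2 : (2 : R) = 0) : ∀ (n : ℕ) (L : List (List ℕ)), L.length ≤ n →
    Vapp L → ((prs L).map (evp ρ)).sum = (L.map (evp ρ)).sum ∧ Vapp (prs L) := by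
  intro n
  induction n using Nat.strong_induction_on with
  | _ n ih =>
    intro L hn hL
    match L, hn, hL with
    | [], _, hL => exact ⟨rfl, hL⟩
    | [a], _, hL => exact ⟨rfl, hL⟩
    | a :: b :: L, hn, hL =>
      have ha : Vap a := hL a (by simp)
      have hb : Vap b := hL b (by simp)
      have hL' : Vapp L := fun p hp => hL p (by simp [hp])
      obtain ⟨i1, i2⟩ := ih L.length (by simp at hn; omega) L (le_refl _) hL'
      obtain ⟨j1, j2⟩ := xa_spec ρ h2 ha hb
      rw [prs]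
      refine ⟨?_, ?_⟩
      · simp only [List.map_cons, List.sum_cons, i1, j1, add_assoc]
      · intro p hp
        rcases List.mem_cons.mp hp with rfl | hp
        · exact j2
        · exact i2 p hp

theorem bs_spec (ρ : ℕ → R) (h2 : (2 : R) = 0) (k : ℕ) : ∀ (L : List (List ℕ)), Vapp L →
    evp ρ (bs k L) = (L.map (evp ρ)).sum ∧ Vap (bs k L) := by
  induction k with
  | zero =>
    intro L
    rw [bs]
    induction L with
    | nil => intro _; exact ⟨rfl, fun n hn => by simp at hn⟩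
    | cons a L ih =>
      intro hL
      obtain ⟨i1, i2⟩ := ih (fun p hp => hL p (List.mem_cons_of_mem _ hp))
      obtain ⟨j1, j2⟩ := xa_spec ρ h2 (hL a List.mem_cons_self) i2
      rw [List.foldr_cons]
      refine ⟨?_, j2⟩
      rw [j1, i1, List.map_cons, List.sum_cons]
  | succ k ih =>
    intro L hL
    obtain ⟨i1, i2⟩ := prs_spec ρ h2 _ L (le_refl _) hL
    obtain ⟨j1, j2⟩ := ih _ i2
    rw [bs]
    exact ⟨j1.trans i1, j2⟩

/-- list of the products of the words of `p` with `q` -/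
def pml (sq : ℕ → Bool) (q : List ℕ) : List ℕ → List (List ℕ)
  | [] => []
  | n :: p => wlm sq n q :: pml sq q p

/-- product of two polynomials -/
def pm (sq : ℕ → Bool) (p q : List ℕ) : List ℕ := bs 12 (pml sq q p)

theorem pml_spec (ρ : ℕ → R) (sq : ℕ → Bool)
    (hsq : ∀ l, sq l = true → ρ l * ρ l = 0) (p q : List ℕ) (hp : Vap p) (hq : Vap q) :
    ((pml sq q p).map (evp ρ)).sum = evp ρ p * evp ρ q ∧ Vapp (pml sq q p) := by
  induction p with
  | nil => simp [pml, evp, Vapp]
  | cons n p ih =>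
    obtain ⟨i1, i2⟩ := ih (fun n hn => hp n (List.mem_cons_of_mem _ hn))
    obtain ⟨j1, j2⟩ := wlm_spec ρ sq hsq (hp n List.mem_cons_self) q hq
    rw [pml]
    refine ⟨?_, ?_⟩
    · rw [List.map_cons, List.sum_cons, i1, j1, evp, add_mul]
    · intro r hr
      rcases List.mem_cons.mp hr with rfl | hr
      · exact j2
      · exact i2 r hr

theorem pm_spec (ρ : ℕ → R) (h2 : (2 : R) = 0) (sq : ℕ → Bool)
    (hsq : ∀ l, sq l = true → ρ l * ρ l = 0) (p q : List ℕ) (hp : Vap p) (hq : Vap q) :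
    evp ρ (pm sq p q) = evp ρ p * evp ρ q ∧ Vap (pm sq p q) := by
  obtain ⟨i1, i2⟩ := pml_spec ρ sq hsq p q hp hq
  obtain ⟨j1, j2⟩ := bs_spec ρ h2 12 _ i2
  exact ⟨j1.trans i1, j2⟩

/-- ring expressions -/
inductive E
  | z : E
  | o : E
  | v (l : ℕ) : E
  | add (a b : E) : E
  | mul (a b : E) : E

def E.eval (ρ : ℕ → R) : E → R
  | z => 0
  | o => 1
  | v l => ρ l
  | add a b => a.eval ρ + b.eval ρ
  | mul a b => a.eval ρ * b.eval ρ

/-- letters are taken mod 8; expressions must only use letters below 8 -/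
def E.ok : E → Bool
  | z => true
  | o => true
  | v l => Nat.blt l 8
  | add a b => a.ok && b.ok
  | mul a b => a.ok && b.ok

def E.nf (sq : ℕ → Bool) : E → List ℕ
  | z => []
  | o => [1]
  | v l => [8 + l]
  | add a b => xa (a.nf sq) (b.nf sq)
  | mul a b => pm sq (a.nf sq) (b.nf sq)

theorem E.nf_spec (ρ : ℕ → R) (h2 : (2 : R) = 0) (sq : ℕ → Bool)
    (hsq : ∀ l, sq l = true → ρ l * ρ l = 0) (e : E) (h : e.ok = true) :
    evp ρ (e.nf sq) = e.eval ρ ∧ Vap (e.nf sq) := by
  induction e with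
  | z => simp [E.nf, evp, E.eval, Vap]
  | o =>
    refine ⟨by simp [E.nf, evp, E.eval, ev_one], ?_⟩
    intro n hn
    rw [E.nf, List.mem_singleton] at hn
    rw [hn]; exact Va.one
  | v l =>
    rw [E.ok, Nat.blt_eq] at h
    have h8 : (8 + l : ℕ) = 8 * 1 + l := by ring
    refine ⟨?_, ?_⟩
    · rw [E.nf, evp, evp, add_zero, E.eval, h8, ev_snoc ρ (le_refl 1) h, ev_one, one_mul]
    · intro n hn
      rw [E.nf, List.mem_singleton] at hn
      rw [hn, h8]; exact Va.snoc 1 l Va.one h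
  | add a b iha ihb =>
    rw [E.ok, Bool.and_eq_true] at h
    obtain ⟨a1, a2⟩ := iha h.1
    obtain ⟨b1, b2⟩ := ihb h.2
    obtain ⟨c1, c2⟩ := xa_spec ρ h2 a2 b2
    exact ⟨by rw [E.nf, c1, a1, b1, E.eval], c2⟩
  | mul a b iha ihb =>
    rw [E.ok, Bool.and_eq_true] at h
    obtain ⟨a1, a2⟩ := iha h.1
    obtain ⟨b1, b2⟩ := ihb h.2
    obtain ⟨c1, c2⟩ := pm_spec ρ h2 sq hsq _ _ a2 b2
    exact ⟨by rw [E.nf, c1, a1, b1, E.eval], c2⟩

/-- code of a list of letters -/
def code : List ℕ → ℕ → ℕ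
  | [], n => n
  | l :: w, n => code w (8 * n + l % 8)

theorem code_va (w : List ℕ) : ∀ n, Va n → Va (code w n) := by
  induction w with
  | nil => intro n h; exact h
  | cons l w ih => intro n h; exact ih _ (Va.snoc n _ h (Nat.mod_lt _ (by norm_num)))

/-- a certificate term `(i, l, r)` stands for `l * H_i * r` -/
structure T where
  i : ℕ
  l : List ℕ
  r : List ℕ

def getD (H : List (List ℕ)) (i : ℕ) : List ℕ :=
  match H, i with
  | [], _ => []
  | h :: _, 0 => h
  | _ :: H, i + 1 => getD H i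

def tv (sq : ℕ → Bool) (H : List (List ℕ)) (t : T) : List ℕ :=
  wrm sq (code t.r 1) (wlm sq (code t.l 1) (getD H t.i))

/-- the list of the values of the terms -/
def tl (sq : ℕ → Bool) (H : List (List ℕ)) : List T → List (List ℕ)
  | [] => []
  | t :: ts => tv sq H t :: tl sq H ts

/-- sum of the terms, balanced -/
def tsum (sq : ℕ → Bool) (H : List (List ℕ)) (ts : List T) : List ℕ := bs 12 (tl sq H ts)

/-- a polynomial known to vanish -/
def Zp (ρ : ℕ → R) (p : List ℕ) : Prop := evp ρ p = 0 ∧ Vap p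

theorem getD_zp (ρ : ℕ → R) (H : List (List ℕ)) (hH : ∀ p ∈ H, Zp ρ p) (i : ℕ) :
    Zp ρ (getD H i) := by
  induction H generalizing i with
  | nil => exact ⟨rfl, fun n hn => by simp [getD] at hn⟩
  | cons h H ih =>
    cases i with
    | zero => exact hH h List.mem_cons_self
    | succ i => exact ih (fun p hp => hH p (List.mem_cons_of_mem _ hp)) i

theorem tl_zp (ρ : ℕ → R) (sq : ℕ → Bool)
    (hsq : ∀ l, sq l = true → ρ l * ρ l = 0) (H : List (List ℕ)) (hH : ∀ p ∈ H, Zp ρ p)
    (ts : List T) : ((tl sq H ts).map (evp ρ)).sum = 0 ∧ Vapp (tl sq H ts) := by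
  induction ts with
  | nil => simp [tl, Vapp]
  | cons t ts ih =>
    obtain ⟨g1, g2⟩ := getD_zp ρ H hH t.i
    obtain ⟨a1, a2⟩ := wlm_spec ρ sq hsq (code_va t.l 1 Va.one) _ g2
    obtain ⟨b1, b2⟩ := wrm_spec ρ sq hsq (code_va t.r 1 Va.one) _ a2
    rw [tl]
    refine ⟨?_, ?_⟩
    · rw [List.map_cons, List.sum_cons, ih.1]
      unfold tv
      rw [b1, a1, g1, mul_zero, zero_mul, add_zero]
    · intro r hr
      rcases List.mem_cons.mp hr with rfl | hr
      · exact b2
      · exact ih.2 r hr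

theorem tsum_zp (ρ : ℕ → R) (h2 : (2 : R) = 0) (sq : ℕ → Bool)
    (hsq : ∀ l, sq l = true → ρ l * ρ l = 0) (H : List (List ℕ)) (hH : ∀ p ∈ H, Zp ρ p)
    (ts : List T) : Zp ρ (tsum sq H ts) := by
  obtain ⟨i1, i2⟩ := tl_zp ρ sq hsq H hH ts
  obtain ⟨j1, j2⟩ := bs_spec ρ h2 12 _ i2
  exact ⟨j1.trans i1, j2⟩

theorem evp_zero_of_eq (ρ : ℕ → R) {p q : List ℕ} (hp : Zp ρ p) (h : p = q) : Zp ρ q := h ▸ hp

/-- a DAG of derived polynomials: each entry is a sum of terms of the previous ones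
(new polynomials are put in front of the list) -/
def dag (sq : ℕ → Bool) : List (List ℕ) → List (List T) → List (List ℕ)
  | H, [] => H
  | H, ts :: D => dag sq (tsum sq H ts :: H) D

theorem dag_zp (ρ : ℕ → R) (h2 : (2 : R) = 0) (sq : ℕ → Bool)
    (hsq : ∀ l, sq l = true → ρ l * ρ l = 0) (D : List (List T)) :
    ∀ (H : List (List ℕ)), (∀ p ∈ H, Zp ρ p) → ∀ p ∈ dag sq H D, Zp ρ p := by
  induction D with
  | nil => intro H hH; exact hH
  | cons ts D ih =>
    intro H hH
    refine ih _ ?_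
    intro p hp
    rcases List.mem_cons.mp hp with rfl | hp
    · exact tsum_zp ρ h2 sq hsq H hH ts
    · exact hH p hp

/-- an expression known to vanish gives a polynomial known to vanish -/
theorem E.zp (ρ : ℕ → R) (h2 : (2 : R) = 0) (sq : ℕ → Bool)
    (hsq : ∀ l, sq l = true → ρ l * ρ l = 0) (e : E) (h : e.ok = true) (he : e.eval ρ = 0) :
    Zp ρ (e.nf sq) := by
  obtain ⟨h1, h3⟩ := e.nf_spec ρ h2 sq hsq h
  exact ⟨h1.trans he, h3⟩

def beqL : List ℕ → List ℕ → Bool
  | [], [] => true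
  | x :: a, y :: b => Nat.beq x y && beqL a b
  | _, _ => false

theorem beqL_eq : ∀ (a b : List ℕ), beqL a b = true → a = b := by
  intro a
  induction a with
  | nil => intro b h; cases b with
    | nil => rfl
    | cons y b => simp [beqL] at h
  | cons x a ih => intro b h; cases b with
    | nil => simp [beqL] at h
    | cons y b =>
      rw [beqL, Bool.and_eq_true, Nat.beq_eq] at h
      rw [h.1, ih b h.2]

/-- the main check: from the relations `rels` (all vanishing) derive that `tgt` vanishes -/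
def check (sq : ℕ → Bool) (rels : List E) (D : List (List T)) (tgt : E) : Bool :=
  rels.all E.ok && tgt.ok &&
    beqL (getD (dag sq (rels.map (E.nf sq)) D) 0) (tgt.nf sq)

theorem check_sound (ρ : ℕ → R) (h2 : (2 : R) = 0) (sq : ℕ → Bool)
    (hsq : ∀ l, sq l = true → ρ l * ρ l = 0) (rels : List E) (hr : ∀ e ∈ rels, e.eval ρ = 0)
    (D : List (List T)) (tgt : E) (hc : check sq rels D tgt = true) : tgt.eval ρ = 0 := by
  unfold check at hc
  rw [Bool.and_eq_true, Bool.and_eq_true, List.all_eq_true] at hc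
  obtain ⟨⟨h1, h3⟩, h4⟩ := hc
  have hz : ∀ p ∈ rels.map (E.nf sq), Zp ρ p := by
    intro p hp
    obtain ⟨e, he, rfl⟩ := List.mem_map.mp hp
    exact e.zp ρ h2 sq hsq (h1 e he) (hr e he)
  have hd := getD_zp ρ _ (dag_zp ρ h2 sq hsq D _ hz) 0
  rw [beqL_eq _ _ h4] at hd
  rw [← (tgt.nf_spec ρ h2 sq hsq h3).1]
  exact hd.1

end Pool.Agent.NCC
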